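import Pool.Agent.H.MP_cd2c38_gt.D

set_option autoImplicit false

/-! Rayleigh quotients on projective space, and quadratic maps into spheres. -/

namespace Pool.Agent.H.MP_cd2c38_gt

open Function Matrix Set
open scoped ContDiff

abbrev V : Type := Fin 4 → ℝ
abbrev Mt : Type := Matrix (Fin 4) (Fin 4) ℝ

def ins (i : Fin 4) (c : ℝ) (u : Fin 3 → ℝ) : V := Fin.insertNth i c u

theorem ins_same (i : Fin 4) (c : ℝ) (u : Fin 3 → ℝ) : ins i c u i = c := by simp [ins]

theorem ins_succ (i : Fin 4) (c : ℝ) (u : Fin 3 → ℝ) (j : Fin 3) :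
    ins i c u (i.succAbove j) = u j := by simp [ins]

theorem ins_line (i : Fin 4) (u w : Fin 3 → ℝ) (t : ℝ) :
    ins i 1 (u + t • w) = ins i 1 u + t • ins i 0 w := by
  ext j
  rcases Fin.eq_self_or_eq_succAbove i j with rfl | ⟨k, rfl⟩ <;> simp [ins_same, ins_succ]

theorem ins_eta (i : Fin 4) (x : V) : ins i (x i) (fun j => x (i.succAbove j)) = x := by
  ext j
  rcases Fin.eq_self_or_eq_succAbove i j with rfl | ⟨k, rfl⟩ <;> simp [ins_same, ins_succ]

theorem ins_smooth (i : Fin 4) : ContDiff ℝ ∞ (ins i 1) := by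
  refine contDiff_pi.mpr fun j => ?_
  rcases Fin.eq_self_or_eq_succAbove i j with rfl | ⟨k, rfl⟩
  · simpa only [ins_same] using contDiff_const
  · simpa only [ins_succ] using contDiff_apply ℝ ℝ k

theorem dot_pos {x : V} (hx : x ≠ 0) : 0 < x ⬝ᵥ x :=
  lt_of_le_of_ne (Finset.sum_nonneg fun _ _ => mul_self_nonneg _)
    fun h => hx (dotProduct_self_eq_zero.mp h.symm)

noncomputable def ray (A : Mt) (x : V) : ℝ := (x ⬝ᵥ A *ᵥ x) / (x ⬝ᵥ x)

theorem ray_smul (A : Mt) (x : V) {c : ℝ} (hc : c ≠ 0) : ray A (c • x) = ray A x := by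
  simp only [ray, mulVec_smul, smul_dotProduct, dotProduct_smul, smul_eq_mul]
  rw [mul_div_mul_left _ _ hc, mul_div_mul_left _ _ hc]

theorem ray_mk (A : Mt) (x : V) (hx : x ≠ 0) : ray A (Projectivization.mk ℝ x hx).rep = ray A x := by
  obtain ⟨a, h⟩ := Projectivization.exists_smul_eq_mk_rep ℝ x hx
  rw [← h, Units.smul_def, ray_smul _ _ a.ne_zero]

theorem ray_smooth (A : Mt) (i : Fin 4) : ContDiff ℝ ∞ fun u => ray A (ins i 1 u) := by
  have h := ins_smooth i
  have hc : ∀ j, ContDiff ℝ ∞ fun u => ins i 1 u j := contDiff_pi.mp h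
  refine ContDiff.div ?_ ?_ fun u => (dot_pos (ins_ne i u)).ne'
  · simp only [dotProduct, mulVec]
    exact ContDiff.sum fun j _ => (hc j).mul (ContDiff.sum fun k _ => contDiff_const.mul (hc k))
  · exact ContDiff.sum fun j _ => (hc j).mul (hc j)

theorem sym_dot {A : Mt} (hA : Aᵀ = A) (x y : V) : x ⬝ᵥ A *ᵥ y = y ⬝ᵥ A *ᵥ x := by
  rw [dotProduct_mulVec, ← mulVec_transpose, hA, dotProduct_comm]

theorem fder {A : Mt} (hA : Aᵀ = A) (C : ℝ) (i : Fin 4) (u w : Fin 3 → ℝ) :
    fderiv ℝ (fun u => C - 2 * ray A (ins i 1 u)) u w =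
      -4 * (ins i 0 w ⬝ᵥ (A *ᵥ ins i 1 u - ray A (ins i 1 u) • ins i 1 u)) /
        (ins i 1 u ⬝ᵥ ins i 1 u) := by
  have hd : DifferentiableAt ℝ (fun u => C - 2 * ray A (ins i 1 u)) u :=
    ((contDiff_const.sub (contDiff_const.mul (ray_smooth A i))).differentiable
      (by simp)).differentiableAt
  rw [← hd.lineDeriv_eq_fderiv, lineDeriv]
  have h0 : ins i 1 u ⬝ᵥ ins i 1 u ≠ 0 := (dot_pos (ins_ne i u)).ne'
  simp only [ins_line, ray, mulVec_add, mulVec_smul, add_dotProduct, dotProduct_add,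
    smul_dotProduct, dotProduct_smul, smul_eq_mul, dotProduct_sub,
    sym_dot hA (ins i 1 u) (ins i 0 w), dotProduct_comm (ins i 1 u) (ins i 0 w)]
  generalize ins i 1 u ⬝ᵥ ins i 1 u = a at h0 ⊢
  generalize ins i 0 w ⬝ᵥ ins i 1 u = b
  generalize ins i 0 w ⬝ᵥ ins i 0 w = c
  generalize ins i 1 u ⬝ᵥ A *ᵥ ins i 1 u = α
  generalize ins i 0 w ⬝ᵥ A *ᵥ ins i 1 u = β
  generalize ins i 0 w ⬝ᵥ A *ᵥ ins i 0 w = γ
  have n : HasDerivAt (fun t : ℝ => α + t * β + t * (β + t * γ)) (2 * β) 0 := by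
    refine (DifferentiableAt.hasDerivAt (by fun_prop)).congr_deriv ?_
    simp (disch := fun_prop); ring
  have d : HasDerivAt (fun t : ℝ => a + t * b + t * (b + t * c)) (2 * b) 0 := by
    refine (DifferentiableAt.hasDerivAt (by fun_prop)).congr_deriv ?_
    simp (disch := fun_prop); ring
  refine HasDerivAt.deriv ((((n.fun_div d (by simpa using h0)).const_mul 2).const_sub C).congr_deriv ?_)
  simp only [zero_mul, add_zero]
  field_simp
  ring

theorem crit_iff {A : Mt} (hA : Aᵀ = A) (C : ℝ) (i : Fin 4) (u : Fin 3 → ℝ) :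
    fderiv ℝ (fun u => C - 2 * ray A (ins i 1 u)) u = 0 ↔
      ∃ μ : ℝ, A *ᵥ ins i 1 u = μ • ins i 1 u := by
  have h0 : ins i 1 u ⬝ᵥ ins i 1 u ≠ 0 := (dot_pos (ins_ne i u)).ne'
  constructor
  · intro h
    refine ⟨ray A (ins i 1 u), sub_eq_zero.mp ?_⟩
    set z := A *ᵥ ins i 1 u - ray A (ins i 1 u) • ins i 1 u with hz
    have h1 : ∀ w, ins i 0 w ⬝ᵥ z = 0 := fun w => by
      have := fder hA C i u w
      rw [h, ContinuousLinearMap.zero_apply, eq_comm, div_eq_zero_iff] at this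
      rcases this with e | e
      · linarith
      · exact absurd e h0
    have h2 : ins i 1 u ⬝ᵥ z = 0 := by
      rw [hz, dotProduct_sub, dotProduct_smul, ray, smul_eq_mul, div_mul_cancel₀ _ h0, sub_self]
    have h3 : z = z i • ins i 1 u + ins i 0 fun j => z (i.succAbove j) - z i * u j := by
      ext j
      rcases Fin.eq_self_or_eq_succAbove i j with rfl | ⟨k, rfl⟩ <;> simp [ins_same, ins_succ]
    rw [← dotProduct_self_eq_zero]
    nth_rewrite 1 [h3]
    rw [add_dotProduct, smul_dotProduct, h1, h2, smul_zero, add_zero]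
  · rintro ⟨μ, h⟩
    ext1 w
    have : ray A (ins i 1 u) = μ := by
      rw [ray, h, dotProduct_smul, smul_eq_mul, mul_div_assoc, div_self h0, mul_one]
    rw [fder hA, this, h, sub_self]
    simp

theorem ex_chart (x : V) (hx : x ≠ 0) : ∃ (i : Fin 4) (u : Fin 3 → ℝ) (c : ℝ), c ≠ 0 ∧ x = c • ins i 1 u := by
  obtain ⟨i, hi⟩ := Function.ne_iff.mp hx
  refine ⟨i, fun j => x (i.succAbove j) / x i, x i, hi, ?_⟩
  have hi' : x i ≠ 0 := hi
  ext j
  rcases Fin.eq_self_or_eq_succAbove i j with rfl | ⟨k, rfl⟩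
  · simp [ins_same]
  · simp only [Pi.smul_apply, ins_succ, smul_eq_mul]; field_simp

theorem count {A : Mt} (hA : Aᵀ = A) (C : ℝ) (g : RP3 → ℝ)
    (hg : ∀ y, g y = C - 2 * ray A y.rep) (hM : IsMorse g) : (crit g).encard = 4 := by
  have e : ∀ i, g ∘ chart i = fun u => C - 2 * ray A (ins i 1 u) := fun i => funext fun u => by
    rw [Function.comp_apply, hg, chart, ray_mk]; rfl
  have one : ∀ (x y : V) (μ : ℝ), x ≠ 0 → A *ᵥ x = μ • x → A *ᵥ y = μ • y → ∃ c : ℝ, y = c • x := by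
    intro x y μ hx h1 h2
    obtain ⟨i, u, c, hc, rfl⟩ := ex_chart x hx
    rw [mulVec_smul, smul_comm] at h1
    replace h1 := smul_right_injective _ hc h1
    set w : Fin 3 → ℝ := fun j => y (i.succAbove j) - y i * u j
    have h3 : y = y i • ins i 1 u + ins i 0 w := by
      ext j
      rcases Fin.eq_self_or_eq_succAbove i j with rfl | ⟨k, rfl⟩ <;> simp [ins_same, ins_succ, w]
    have h4 : A *ᵥ ins i 0 w = μ • ins i 0 w := by
      rw [← sub_eq_of_eq_add' h3, mulVec_sub, mulVec_smul, h1, h2]; module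
    have h5 : ∀ t : ℝ, fderiv ℝ (g ∘ chart i) (u + t • w) = 0 := fun t => by
      rw [e, crit_iff hA, ins_line]
      exact ⟨μ, by rw [mulVec_add, mulVec_smul, h1, h4]; module⟩
    have hd : DifferentiableAt ℝ (fderiv ℝ (g ∘ chart i)) u := by
      rw [e]
      exact (((contDiff_const.sub (contDiff_const.mul (ray_smooth A i))).fderiv_right (m := 1)
        (by norm_cast)).differentiable (by simp)).differentiableAt
    have h6 : w = 0 := hM i u (by simpa using h5 0) (by
      rw [← hd.lineDeriv_eq_fderiv, lineDeriv, map_zero]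
      simp only [h5, deriv_const])
    refine ⟨y i / c, ?_⟩
    have : ins i 0 (0 : Fin 3 → ℝ) = 0 := by
      ext j
      rcases Fin.eq_self_or_eq_succAbove i j with rfl | ⟨k, rfl⟩ <;> simp [ins_same, ins_succ]
    rw [smul_smul, div_mul_cancel₀ _ hc]
    rw [h6, this, add_zero] at h3
    exact h3
  have hH : A.IsHermitian := by rwa [IsHermitian, conjTranspose_eq_transpose_of_trivial]
  let b : Fin 4 → V := fun j => (hH.eigenvectorBasis j).ofLp
  have bo : ∀ j k, b j ⬝ᵥ b k = if j = k then 1 else 0 := fun j k => by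
    rw [← orthonormal_iff_ite.mp hH.eigenvectorBasis.orthonormal j k]
    simp [b, PiLp.inner_apply, dotProduct, mul_comm]
  have bn : ∀ j, b j ≠ 0 := fun j h => by simpa [h] using bo j j
  have be : ∀ j, A *ᵥ b j = hH.eigenvalues j • b j := hH.mulVec_eigenvectorBasis
  have inj : Injective fun j => Projectivization.mk ℝ (b j) (bn j) := fun j k h => by
    obtain ⟨a, ha⟩ := (Projectivization.mk_eq_mk_iff' ℝ _ _ _ _).mp h
    by_contra hn
    have := bo j j
    nth_rewrite 2 [← ha] at this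
    simp [bo, hn] at this
  have : crit g = range fun j => Projectivization.mk ℝ (b j) (bn j) := by
    ext y
    constructor
    · rintro ⟨i, u, rfl, h⟩
      rw [e, crit_iff hA] at h
      obtain ⟨μ, h⟩ := h
      obtain ⟨j, hj⟩ : ∃ j, b j ⬝ᵥ ins i 1 u ≠ 0 := by
        by_contra hn
        push Not at hn
        have h1 := hH.eigenvectorBasis.sum_repr' (WithLp.toLp 2 (ins i 1 u))
        have h2 : ∀ j, inner ℝ (hH.eigenvectorBasis j) (WithLp.toLp 2 (ins i 1 u)) = 0 :=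
          fun j => by
            rw [← hn j]; simp [b, PiLp.inner_apply, dotProduct, mul_comm]
        simp only [h2, zero_smul, Finset.sum_const_zero] at h1
        exact ins_ne i u (congrArg WithLp.ofLp h1).symm
      have h3 := sym_dot hA (b j) (ins i 1 u)
      rw [h, be, dotProduct_smul, dotProduct_smul, dotProduct_comm (ins i 1 u), smul_eq_mul,
        smul_eq_mul] at h3
      obtain ⟨c, hc⟩ := one _ (b j) μ (ins_ne i u) h (by rw [be, mul_right_cancel₀ hj h3])
      exact ⟨j, (Projectivization.mk_eq_mk_iff' ℝ _ _ _ _).mpr ⟨c, hc.symm⟩⟩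
    · rintro ⟨j, rfl⟩
      obtain ⟨i, u, c, hc, h⟩ := ex_chart (b j) (bn j)
      refine ⟨i, u, ((Projectivization.mk_eq_mk_iff' ℝ _ _ _ _).mpr ⟨c, h.symm⟩).symm, ?_⟩
      rw [e, crit_iff hA]
      have h1 := be j
      rw [h, mulVec_smul, smul_comm] at h1
      exact ⟨_, smul_right_injective _ hc h1⟩
  rw [this, ← image_univ, inj.encard_image]
  simp

theorem gen {N : ℕ} (A : Fin N → Mt) (hs : ∀ k, (A k)ᵀ = A k)
    (hn : ∀ x : V, ∑ k, (x ⬝ᵥ A k *ᵥ x) ^ 2 = (x ⬝ᵥ x) ^ 2)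
    (P : (Fin N → ℝ) → Fin 4 → Fin 4 → ℝ) (hP : ∀ i j, Differentiable ℝ fun y => P y i j)
    (hP' : ∀ x : V, x ≠ 0 → ∀ i j, P (fun k => ray (A k) x) i j = x i * x j / (x ⬝ᵥ x))
    (hi : ∀ (l : Fin N → ℝ) (c : ℝ), (∀ x : V, ∑ k, l k * (x ⬝ᵥ A k *ᵥ x) = c * (x ⬝ᵥ x)) → l = 0) :
    ∃ f : RP3 → EuclideanSpace ℝ (Fin N), IsEmb f ∧ (∀ y, ‖f y‖ = 1) ∧
      affineSpan ℝ (range f) = ⊤ ∧ Taut f := by
  let f : RP3 → EuclideanSpace ℝ (Fin N) := fun y => WithLp.toLp 2 fun k => ray (A k) y.rep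
  have e : ∀ i, f ∘ chart i = fun u => WithLp.toLp 2 fun k => ray (A k) (ins i 1 u) :=
    fun i => funext fun u => by simp only [Function.comp_apply, f, chart, ray_mk]; rfl
  have nrm : ∀ y, ‖f y‖ = 1 := fun y => by
    rw [EuclideanSpace.norm_eq, Real.sqrt_eq_one]
    simp only [f, ray, Real.norm_eq_abs, sq_abs, div_pow, ← Finset.sum_div, hn]
    exact div_self (pow_pos (dot_pos y.rep_nonzero) 2).ne'
  refine ⟨f, ⟨fun y z h => ?_, fun i => ?_⟩, nrm, ?_, fun p => ?_⟩
  · have h1 : (fun k => ray (A k) y.rep) = fun k => ray (A k) z.rep := congrArg WithLp.ofLp h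
    have h2 : ∀ i j, y.rep i * y.rep j / (y.rep ⬝ᵥ y.rep) = z.rep i * z.rep j / (z.rep ⬝ᵥ z.rep) :=
      fun i j => by rw [← hP' _ y.rep_nonzero, h1, hP' _ z.rep_nonzero]
    obtain ⟨i, hi⟩ := Function.ne_iff.mp y.rep_nonzero
    have hi' : y.rep i ≠ 0 := hi
    have a := (dot_pos y.rep_nonzero).ne'
    have b := (dot_pos z.rep_nonzero).ne'
    rw [← y.mk_rep, ← z.mk_rep, Projectivization.mk_eq_mk_iff']
    refine ⟨z.rep i * (y.rep ⬝ᵥ y.rep) / (y.rep i * (z.rep ⬝ᵥ z.rep)), funext fun j => ?_⟩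
    have := h2 i j
    rw [Pi.smul_apply, smul_eq_mul]
    field_simp at this ⊢
    linear_combination -this
  · have sm : ContDiff ℝ ∞ (f ∘ chart i) := by
      rw [e]; exact contDiff_euclidean.mpr fun k => ray_smooth (A k) i
    refine ⟨sm, fun u => ?_⟩
    let ψ : EuclideanSpace ℝ (Fin N) → Fin 3 → ℝ :=
      fun y j => P y.ofLp i (i.succAbove j) / P y.ofLp i i
    have h1 : ψ ∘ (f ∘ chart i) = id := by
      funext v j
      have := (dot_pos (ins_ne i v)).ne'
      simp only [e, Function.comp_apply, ψ, hP' (ins i 1 v) (ins_ne i v), ins_same, ins_succ, id]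
      change _ / (ins i 1 v ⬝ᵥ ins i 1 v) / (_ / (ins i 1 v ⬝ᵥ ins i 1 v)) = _
      change ins i 1 v ⬝ᵥ ins i 1 v ≠ 0 at this
      field_simp
    have hd : DifferentiableAt ℝ ψ ((f ∘ chart i) u) := by
      have hq : ∀ a b, Differentiable ℝ fun y : EuclideanSpace ℝ (Fin N) => P y.ofLp a b :=
        fun a b => (hP a b).comp (f := fun y : EuclideanSpace ℝ (Fin N) => y.ofLp) (by fun_prop)
      refine differentiableAt_pi.mpr fun j => ?_
      simp only [ψ, div_eq_mul_inv]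
      refine (hq _ _ _).mul ((hq _ _ _).inv ?_)
      simp only [e, hP' (ins i 1 u) (ins_ne i u), ins_same]
      exact (div_pos (by norm_num) (dot_pos (ins_ne i u))).ne'
    have h2 := fderiv_comp u hd (sm.differentiable (by simp) u)
    rw [h1, fderiv_id] at h2
    intro v w h
    have h3 := congrArg (fderiv ℝ ψ ((f ∘ chart i) u)) h
    rwa [← ContinuousLinearMap.comp_apply, ← ContinuousLinearMap.comp_apply, ← h2] at h3
  · have hne : (range f).Nonempty := ⟨_, chart 0 0, rfl⟩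
    rw [AffineSubspace.affineSpan_eq_top_iff_vectorSpan_eq_top_of_nonempty ℝ _ _ hne,
      ← Submodule.orthogonal_eq_bot_iff, eq_bot_iff]
    intro l hl
    have h1 : ∀ y, inner ℝ (f y - f (chart 0 0)) l = 0 := fun y =>
      hl _ (vsub_mem_vectorSpan ℝ ⟨y, rfl⟩ ⟨_, rfl⟩)
    have := hi l.ofLp (inner ℝ (f (chart 0 0)) l) fun x => by
      by_cases hx : x = 0
      · simp [hx]
      have h2 := h1 (Projectivization.mk ℝ x hx)
      rw [inner_sub_left, sub_eq_zero] at h2
      rw [← h2]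
      simp only [f, ray_mk]
      simp only [PiLp.inner_apply, ray, RCLike.inner_apply, conj_trivial, Finset.sum_mul]
      have := (dot_pos hx).ne'
      exact Finset.sum_congr rfl fun k _ => by field_simp
    exact (WithLp.ofLp_eq_zero 2).mp this
  · refine count (A := ∑ k, p k • A k) ?_ (‖p‖ ^ 2 + 1) _ fun y => ?_
    · simp only [transpose_sum, transpose_smul, hs]
    · rw [norm_sub_sq_real, nrm]
      simp only [f, PiLp.inner_apply, ray, RCLike.inner_apply, conj_trivial, sum_mulVec,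
        smul_mulVec, dotProduct_sum, dotProduct_smul, smul_eq_mul, Finset.sum_div]
      rw [Finset.sum_congr rfl fun k _ => show y.rep ⬝ᵥ A k *ᵥ y.rep / (y.rep ⬝ᵥ y.rep) * p k =
        p k * (y.rep ⬝ᵥ A k *ᵥ y.rep) / (y.rep ⬝ᵥ y.rep) by ring]
      ring

end Pool.Agent.H.MP_cd2c38_gt
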