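import Pool.Agent.H.MP_cd2c38_gt.A

set_option autoImplicit false

/-! Weighted entries of the rotation matrix of a quaternion. -/

namespace Pool.Agent.H.MP_cd2c38_gt

open Function Matrix Set

def B12 : Mt := !![0, 0, 0, -1; 0, 0, 1, 0; 0, 1, 0, 0; -1, 0, 0, 0]
def B13 : Mt := !![0, 0, 1, 0; 0, 0, 0, 1; 1, 0, 0, 0; 0, 1, 0, 0]
def B21 : Mt := !![0, 0, 0, 1; 0, 0, 1, 0; 0, 1, 0, 0; 1, 0, 0, 0]
def B22 : Mt := !![1, 0, 0, 0; 0, -1, 0, 0; 0, 0, 1, 0; 0, 0, 0, -1]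
def B23 : Mt := !![0, -1, 0, 0; -1, 0, 0, 0; 0, 0, 0, 1; 0, 0, 1, 0]
def B31 : Mt := !![0, 0, -1, 0; 0, 0, 0, 1; -1, 0, 0, 0; 0, 1, 0, 0]
def B32 : Mt := !![0, 1, 0, 0; 1, 0, 0, 0; 0, 0, 0, 1; 0, 0, 1, 0]
def B33 : Mt := !![1, 0, 0, 0; 0, -1, 0, 0; 0, 0, -1, 0; 0, 0, 0, 1]

theorem Bsym : B12ᵀ = B12 ∧ B13ᵀ = B13 ∧ B21ᵀ = B21 ∧ B22ᵀ = B22 ∧ B23ᵀ = B23 ∧ B31ᵀ = B31 ∧
    B32ᵀ = B32 ∧ B33ᵀ = B33 := by
  refine ⟨?_, ?_, ?_, ?_, ?_, ?_, ?_, ?_⟩ <;> ext i j <;> fin_cases i <;> fin_cases j <;> rfl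

theorem Bq (x : V) : x ⬝ᵥ B12 *ᵥ x = 2 * (x 1 * x 2 - x 0 * x 3) ∧
    x ⬝ᵥ B13 *ᵥ x = 2 * (x 1 * x 3 + x 0 * x 2) ∧ x ⬝ᵥ B21 *ᵥ x = 2 * (x 1 * x 2 + x 0 * x 3) ∧
    x ⬝ᵥ B22 *ᵥ x = x 0 ^ 2 - x 1 ^ 2 + x 2 ^ 2 - x 3 ^ 2 ∧
    x ⬝ᵥ B23 *ᵥ x = 2 * (x 2 * x 3 - x 0 * x 1) ∧ x ⬝ᵥ B31 *ᵥ x = 2 * (x 1 * x 3 - x 0 * x 2) ∧
    x ⬝ᵥ B32 *ᵥ x = 2 * (x 2 * x 3 + x 0 * x 1) ∧
    x ⬝ᵥ B33 *ᵥ x = x 0 ^ 2 - x 1 ^ 2 - x 2 ^ 2 + x 3 ^ 2 ∧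
    x ⬝ᵥ x = x 0 ^ 2 + x 1 ^ 2 + x 2 ^ 2 + x 3 ^ 2 := by
  refine ⟨?_, ?_, ?_, ?_, ?_, ?_, ?_, ?_, ?_⟩ <;>
    simp [dotProduct, mulVec, Fin.sum_univ_four, B12, B13, B21, B22, B23, B31, B32, B33] <;> ring

noncomputable def P9 (a b c d e f g h k : ℝ) : Fin 4 → Fin 4 → ℝ :=
  ![![(1 + a + e + k) / 4, (h - f) / 4, (c - g) / 4, (d - b) / 4],
    ![(h - f) / 4, (1 + a - e - k) / 4, (b + d) / 4, (c + g) / 4],
    ![(c - g) / 4, (b + d) / 4, (1 - a + e - k) / 4, (f + h) / 4],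
    ![(d - b) / 4, (c + g) / 4, (f + h) / 4, (1 - a - e + k) / 4]]

noncomputable def P6 (d e f g h k : ℝ) : Fin 4 → Fin 4 → ℝ :=
  P9 (e * k - f * h) (f * g - d * k) (d * h - e * g) d e f g h k

theorem P6_spec (x : V) (hx : x ≠ 0) (i j : Fin 4) :
    P6 (ray B21 x) (ray B22 x) (ray B23 x) (ray B31 x) (ray B32 x) (ray B33 x) i j =
      x i * x j / (x ⬝ᵥ x) := by
  obtain ⟨-, -, h3, h4, h5, h6, h7, h8, h9⟩ := Bq x
  have h0 := (dot_pos hx).ne'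
  simp only [ray, h3, h4, h5, h6, h7, h8]
  generalize x ⬝ᵥ x = n at h0 h9
  fin_cases i <;> fin_cases j <;>
    simp only [P6, P9, Fin.zero_eta, Fin.mk_one, Fin.reduceFinMk, Matrix.cons_val] <;>
    field_simp <;> subst h9 <;> ring

theorem P6_diff {N : ℕ} (d e f g h k : (Fin N → ℝ) → ℝ) (hd : Differentiable ℝ d)
    (he : Differentiable ℝ e) (hf : Differentiable ℝ f) (hg : Differentiable ℝ g)
    (hh : Differentiable ℝ h) (hk : Differentiable ℝ k) (i j : Fin 4) :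
    Differentiable ℝ fun y => P6 (d y) (e y) (f y) (g y) (h y) (k y) i j := by
  fin_cases i <;> fin_cases j <;>
    simp only [P6, P9, Fin.zero_eta, Fin.mk_one, Fin.reduceFinMk, Matrix.cons_val] <;> fun_prop

theorem ray_sm (s : ℝ) (hs : s ≠ 0) (A : Mt) (x : V) : ray (s • A) x / s = ray A x := by
  simp only [ray, smul_mulVec, dotProduct_smul, smul_eq_mul]
  rw [mul_div_assoc, mul_div_cancel_left₀ _ hs]

theorem six : ∃ f : RP3 → EuclideanSpace ℝ (Fin 7), IsEmb f ∧ (∀ y, ‖f y‖ = 1) ∧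
    affineSpan ℝ (range f) = ⊤ ∧ Taut f := by
  obtain ⟨s, hs⟩ : ∃ s : ℝ, s ^ 2 = 1 / 3 := ⟨_, Real.sq_sqrt (by norm_num)⟩
  obtain ⟨t, ht⟩ : ∃ s : ℝ, s ^ 2 = 2 / 3 := ⟨_, Real.sq_sqrt (by norm_num)⟩
  have s0 : s ≠ 0 := by rintro rfl; norm_num at hs
  have t0 : t ≠ 0 := by rintro rfl; norm_num at ht
  obtain ⟨b1, b2, b3, b4, b5, b6, b7, b8⟩ := Bsym
  refine gen ![s • B13, s • B21, s • B22, t • B23, s • B31, s • B32, t • B33] (fun k => ?_)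
    (fun x => ?_) (fun y => P6 (y 1 / s) (y 2 / s) (y 3 / t) (y 4 / s) (y 5 / s) (y 6 / t))
    (P6_diff _ _ _ _ _ _ (by fun_prop) (by fun_prop) (by fun_prop) (by fun_prop) (by fun_prop)
      (by fun_prop)) (fun x hx i j => ?_) fun l c h => ?_
  · fin_cases k <;> simp [*]
  · obtain ⟨h1, h2, h3, h4, h5, h6, h7, h8, h9⟩ := Bq x
    simp only [Fin.sum_univ_seven, Matrix.cons_val, smul_mulVec, dotProduct_smul, smul_eq_mul,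
      mul_pow, hs, ht, h2, h3, h4, h5, h6, h7, h8, h9]
    ring
  · simp only [Matrix.cons_val, ray_sm _ s0, ray_sm _ t0]
    exact P6_spec x hx i j
  · simp only [Fin.sum_univ_seven, Matrix.cons_val, smul_mulVec, dotProduct_smul, smul_eq_mul,
      Bq, ← mul_assoc] at h
    have e0 := h ![1, 0, 0, 0]
    have e1 := h ![0, 1, 0, 0]
    have e2 := h ![0, 0, 1, 0]
    have e3 := h ![1, 1, 0, 0]
    have e4 := h ![1, 0, 1, 0]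
    have e5 := h ![1, 0, 0, 1]
    have e6 := h ![0, 1, 0, 1]
    have e7 := h ![0, 0, 1, 1]
    simp only [Matrix.cons_val] at e0 e1 e2 e3 e4 e5 e6 e7
    funext k
    fin_cases k <;> simp only [Fin.zero_eta, Fin.mk_one, Fin.reduceFinMk, Pi.zero_apply] <;>
      first
        | exact (mul_eq_zero_iff_right s0).mp (by linarith)
        | exact (mul_eq_zero_iff_right t0).mp (by linarith)

theorem seven : ∃ f : RP3 → EuclideanSpace ℝ (Fin 8), IsEmb f ∧ (∀ y, ‖f y‖ = 1) ∧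
    affineSpan ℝ (range f) = ⊤ ∧ Taut f := by
  obtain ⟨s, hs⟩ : ∃ s : ℝ, s ^ 2 = 1 / 4 := ⟨_, Real.sq_sqrt (by norm_num)⟩
  obtain ⟨t, ht⟩ : ∃ s : ℝ, s ^ 2 = 1 / 2 := ⟨_, Real.sq_sqrt (by norm_num)⟩
  have s0 : s ≠ 0 := by rintro rfl; norm_num at hs
  have t0 : t ≠ 0 := by rintro rfl; norm_num at ht
  obtain ⟨b1, b2, b3, b4, b5, b6, b7, b8⟩ := Bsym
  refine gen ![s • B13, s • B21, t • B22, t • B23, s • B31, t • B32, t • B33, s • B12]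
    (fun k => ?_)
    (fun x => ?_) (fun y => P6 (y 1 / s) (y 2 / t) (y 3 / t) (y 4 / s) (y 5 / t) (y 6 / t))
    (P6_diff _ _ _ _ _ _ (by fun_prop) (by fun_prop) (by fun_prop) (by fun_prop) (by fun_prop)
      (by fun_prop)) (fun x hx i j => ?_) fun l c h => ?_
  · fin_cases k <;> simp [*]
  · obtain ⟨h1, h2, h3, h4, h5, h6, h7, h8, h9⟩ := Bq x
    simp only [Fin.sum_univ_eight, Matrix.cons_val, smul_mulVec, dotProduct_smul, smul_eq_mul,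
      mul_pow, hs, ht, h1, h2, h3, h4, h5, h6, h7, h8, h9]
    ring
  · simp only [Matrix.cons_val, ray_sm _ s0, ray_sm _ t0]
    exact P6_spec x hx i j
  · simp only [Fin.sum_univ_eight, Matrix.cons_val, smul_mulVec, dotProduct_smul, smul_eq_mul,
      Bq, ← mul_assoc] at h
    have e0 := h ![1, 0, 0, 0]
    have e1 := h ![0, 1, 0, 0]
    have e2 := h ![0, 0, 1, 0]
    have e3 := h ![1, 1, 0, 0]
    have e4 := h ![1, 0, 1, 0]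
    have e5 := h ![1, 0, 0, 1]
    have e6 := h ![0, 1, 0, 1]
    have e7 := h ![0, 0, 1, 1]
    have e8 := h ![0, 1, 1, 0]
    simp only [Matrix.cons_val] at e0 e1 e2 e3 e4 e5 e6 e7 e8
    funext k
    fin_cases k <;> simp only [Fin.zero_eta, Fin.mk_one, Fin.reduceFinMk, Pi.zero_apply] <;>
      first
        | exact (mul_eq_zero_iff_right s0).mp (by linarith)
        | exact (mul_eq_zero_iff_right t0).mp (by linarith)

end Pool.Agent.H.MP_cd2c38_gt
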