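import Mathlib

set_option autoImplicit false

namespace Pool.Agent.H.MP_cd2c38_gt

open Function
open scoped ContDiff

/-- real projective 3-space -/
abbrev RP3 : Type := Projectivization ℝ (Fin 4 → ℝ)

theorem ins_ne (i : Fin 4) (u : Fin 3 → ℝ) : (Fin.insertNth i 1 u : Fin 4 → ℝ) ≠ 0 := fun h => by
  simpa using congrFun h i

/-- the standard affine charts: `u` goes to the point with `i`-th coordinate `1` -/
noncomputable def chart (i : Fin 4) (u : Fin 3 → ℝ) : RP3 :=
  Projectivization.mk ℝ (Fin.insertNth i 1 u) (ins_ne i u)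

/-- smooth injective immersion -/
def IsEmb {W : Type} [NormedAddCommGroup W] [NormedSpace ℝ W] (f : RP3 → W) : Prop :=
  Injective f ∧ ∀ i, ContDiff ℝ ∞ (f ∘ chart i) ∧ ∀ u, Injective (fderiv ℝ (f ∘ chart i) u)

/-- critical points -/
def crit (g : RP3 → ℝ) : Set RP3 :=
  {y | ∃ i u, chart i u = y ∧ fderiv ℝ (g ∘ chart i) u = 0}

/-- all critical points are nondegenerate -/
def IsMorse (g : RP3 → ℝ) : Prop :=
  ∀ i u, fderiv ℝ (g ∘ chart i) u = 0 → Injective (fderiv ℝ (fderiv ℝ (g ∘ chart i)) u)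

/-- every Morse distance function has exactly four critical points -/
def Taut {W : Type} [NormedAddCommGroup W] (f : RP3 → W) : Prop :=
  ∀ p : W, IsMorse (fun y => ‖p - f y‖ ^ 2) → (crit fun y => ‖p - f y‖ ^ 2).encard = 4

end Pool.Agent.H.MP_cd2c38_gt
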